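import Pool.Agent.H4.FV.OddT

set_option autoImplicit false
set_option linter.unusedVariables false
set_option linter.unusedSectionVars false

/-! The choice of the generators. -/

namespace Pool.Agent.H643.FV

open Pool.Agent.H4.FV.Odd
open Pool.Agent.R620.GG

section alg

variable {p : ℕ} [Fact p.Prime] {A : Type} [NonUnitalNonAssocRing A] [Module (ZMod p) A]

theorem smm (c : ZMod p) (a b : A) : (c • a) * b = c • (a * b) := by
  have : NeZero p := ⟨(Fact.out : p.Prime).ne_zero⟩
  rw [← ZMod.natCast_zmod_val c, Nat.cast_smul_eq_nsmul, Nat.cast_smul_eq_nsmul, smul_mul_assoc]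

variable (p A) in
/-- the centre -/
def Zs : Submodule (ZMod p) A where
  carrier := {z | Ct z}
  add_mem' := fun {a b} ha hb x => by rw [add_mul, ha x, hb x, add_zero]
  zero_mem' := fun x => zero_mul x
  smul_mem' := fun c z hz x => by rw [smm, hz x, smul_zero]

theorem mem_Zs {x : A} : x ∈ Zs p A ↔ Ct x := Iff.rfl

theorem lc_range {ι B : Type} [Fintype ι] (φ : ι → B) (hφ : Function.Injective φ) (s : B → A)
    (c : B →₀ ZMod p) (h : ∀ b, c b ≠ 0 → ∃ i, φ i = b) :
    Finsupp.linearCombination (ZMod p) s c = ∑ i, c (φ i) • s (φ i) := by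
  classical
  have h1 : c.support ⊆ Finset.univ.map ⟨φ, hφ⟩ := by
    intro b hb
    obtain ⟨i, hi⟩ := h b (Finsupp.mem_support_iff.1 hb)
    exact Finset.mem_map.2 ⟨i, Finset.mem_univ i, hi⟩
  rw [Finsupp.linearCombination_apply, Finsupp.sum_of_support_subset c h1 (fun i a => a • s i)
    (fun i _ => zero_smul _ _), Finset.sum_map]
  rfl

/-- the index type of the old generators -/
abbrev B0 (V : Type) (E : V → V → Prop) : Type :=
  (V × Fin 3) ⊕ ({q : V × V // E q.1 q.2} × Fin 2)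

/-- the old generators -/
def s0 {V : Type} {E : V → V → Prop} (ρ y z : V → A) (a b : {q : V × V // E q.1 q.2} → A) :
    B0 V E → A
  | Sum.inl (v, j) => ![ρ v, y v, z v] j
  | Sum.inr (q, j) => ![a q, b q] j

/-- finitely many vertices and edges -/
theorem enum {V : Type} {E : V → V → Prop} (c : B0 V E →₀ ZMod p) :
    ∃ (n m : ℕ) (eP : Fin n → V) (eQ : Fin m → {q : V × V // E q.1 q.2}),
      Function.Injective eP ∧ Function.Injective eQ ∧
      (∀ v j, c (Sum.inl (v, j)) ≠ 0 → ∃ i, eP i = v) ∧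
      (∀ q j, c (Sum.inr (q, j)) ≠ 0 → ∃ k, eQ k = q) ∧
      ∀ k, (∃ i, eP i = (eQ k).1.1) ∧ ∃ i, eP i = (eQ k).1.2 := by
  classical
  let Q : Finset {q : V × V // E q.1 q.2} := c.support.toRight.image Prod.fst
  let P : Finset V := c.support.toLeft.image Prod.fst ∪ (Q.image fun q => q.1.1) ∪
    (Q.image fun q => q.1.2)
  have hsur : ∀ v ∈ P, ∃ i : Fin P.card, (P.equivFin.symm i).1 = v := fun v hv =>
    ⟨P.equivFin ⟨v, hv⟩, congrArg Subtype.val (Equiv.symm_apply_apply _ _)⟩
  refine ⟨P.card, Q.card, fun i => (P.equivFin.symm i).1, fun k => (Q.equivFin.symm k).1,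
    Subtype.val_injective.comp P.equivFin.symm.injective,
    Subtype.val_injective.comp Q.equivFin.symm.injective, ?_, ?_, ?_⟩
  · intro v j hv
    apply hsur
    refine Finset.mem_union_left _ (Finset.mem_union_left _ (Finset.mem_image.2 ⟨(v, j), ?_, rfl⟩))
    rw [Finset.mem_toLeft]
    exact Finsupp.mem_support_iff.2 hv
  · intro q j hq
    have h1 : q ∈ Q := by
      refine Finset.mem_image.2 ⟨(q, j), ?_, rfl⟩
      rw [Finset.mem_toRight]
      exact Finsupp.mem_support_iff.2 hq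
    exact ⟨Q.equivFin ⟨q, h1⟩, congrArg Subtype.val (Equiv.symm_apply_apply _ _)⟩
  · intro k
    have h1 := (Q.equivFin.symm k).2
    exact ⟨hsur _ (Finset.mem_union_left _ (Finset.mem_union_right _
        (Finset.mem_image.2 ⟨_, h1, rfl⟩))),
      hsur _ (Finset.mem_union_right _ (Finset.mem_image.2 ⟨_, h1, rfl⟩))⟩

/-- the map of the indices -/
def ph {V : Type} {E : V → V → Prop} {n m : ℕ} (eP : Fin n → V)
    (eQ : Fin m → {q : V × V // E q.1 q.2}) : Ix n m → B0 V E :=
  Sum.map (Prod.map eP id) (Prod.map eQ id)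

theorem ph_inj {V : Type} {E : V → V → Prop} {n m : ℕ} {eP : Fin n → V}
    {eQ : Fin m → {q : V × V // E q.1 q.2}} (h1 : Function.Injective eP)
    (h2 : Function.Injective eQ) : Function.Injective (ph eP eQ) :=
  Function.Injective.sumMap (h1.prodMap Function.injective_id) (h2.prodMap Function.injective_id)

theorem ph_sur {V : Type} {E : V → V → Prop} {n m : ℕ} {eP : Fin n → V}
    {eQ : Fin m → {q : V × V // E q.1 q.2}} {c : B0 V E →₀ ZMod p}
    (h1 : ∀ v j, c (Sum.inl (v, j)) ≠ 0 → ∃ i, eP i = v)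
    (h2 : ∀ q j, c (Sum.inr (q, j)) ≠ 0 → ∃ k, eQ k = q) (b : B0 V E) (hb : c b ≠ 0) :
    ∃ i, ph eP eQ i = b := by
  rcases b with ⟨v, j⟩ | ⟨q, j⟩
  · obtain ⟨i, hi⟩ := h1 v j hb
    exact ⟨Sum.inl (i, j), by rw [← hi]; rfl⟩
  · obtain ⟨i, hi⟩ := h2 q j hb
    exact ⟨Sum.inr (i, j), by rw [← hi]; rfl⟩

/-- the old generators are independent -/
theorem ind0 {V : Type} {E : V → V → Prop} {ρ : V → A} (hf : FindA p A) (hR : Rep p E ρ)
    (y z : V → A) (a b : {q : V × V // E q.1 q.2} → A) (ht : ∀ v, TriA p (ρ v) (y v) (z v))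
    (hq : ∀ q, QdA p (ρ q.1.1) (ρ q.1.2) (a q) (b q)) (c : B0 V E →₀ ZMod p)
    (hc : Ct (Finsupp.linearCombination (ZMod p) (s0 ρ y z a b) c)) : c = 0 := by
  obtain ⟨n, m, eP, eQ, h1, h2, h3, h4, h5⟩ := enum c
  have h6 := fun k => (h5 k).1
  have h7 := fun k => (h5 k).2
  choose s hs using h6
  choose t hte using h7
  have hsh : Shape n m s t := by
    refine ⟨fun k hk => ?_, fun k l hkl => ?_⟩
    · have e1 : (eQ k).1.1 = (eQ k).1.2 := by rw [← hs k, ← hte k, hk]
      have e2 := (eQ k).2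
      rw [e1] at e2
      exact hR.as _ _ e2 e2
    · rcases hkl with ⟨e1, e2⟩ | ⟨e1, e2⟩
      · apply h2
        apply Subtype.ext
        apply Prod.ext
        · rw [← hs k, ← hs l, e1]
        · rw [← hte k, ← hte l, e2]
      · exfalso
        have e3 : (eQ k).1.1 = (eQ l).1.2 := by rw [← hs k, ← hte l, e1]
        have e4 : (eQ k).1.2 = (eQ l).1.1 := by rw [← hs l, ← hte k, e2]
        have e5 := (eQ k).2
        rw [e3, e4] at e5
        exact hR.as _ _ e5 (eQ l).2
  have hcfg : CfgA p s t (fun i => ρ (eP i)) (fun i => y (eP i)) (fun i => z (eP i))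
      (fun k => a (eQ k)) (fun k => b (eQ k)) := by
    refine ⟨fun i => ht _, fun i j hij => hR.ne _ _ fun h => hij (h1 h), fun k => ?_⟩
    change QdA p (ρ (eP (s k))) (ρ (eP (t k))) (a (eQ k)) (b (eQ k))
    rw [hs k, hte k]
    exact hq _
  have hI := hf n m s t hsh _ _ _ _ _ hcfg
  have e1 : Finsupp.linearCombination (ZMod p) (s0 ρ y z a b) c =
      lcA p (cf (fun i => ρ (eP i)) (fun i => y (eP i)) (fun i => z (eP i))
        (fun k => a (eQ k)) (fun k => b (eQ k))) fun i => c (ph eP eQ i) := by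
    rw [lc_range (ph eP eQ) (ph_inj h1 h2) _ c (ph_sur h3 h4)]
    unfold lcA
    apply Finset.sum_congr rfl
    intro i _
    rcases i with ⟨i, j⟩ | ⟨i, j⟩
    · rfl
    · rfl
  rw [e1] at hc
  by_contra hne
  obtain ⟨b', hb'⟩ := Finsupp.ne_iff.1 hne
  obtain ⟨i, hi⟩ := ph_sur h3 h4 b' hb'
  exact hI (fun i => c (ph eP eQ i)) ⟨i, by rw [hi]; exact hb'⟩ hc

/-- combinations of the old generators are combinations of loose configurations -/
theorem loose0 {V : Type} {E : V → V → Prop} {ρ : V → A}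
    (y z : V → A) (a b : {q : V × V // E q.1 q.2} → A) (ht : ∀ v, TriA p (ρ v) (y v) (z v))
    (hq : ∀ q, QdA p (ρ q.1.1) (ρ q.1.2) (a q) (b q)) (c : B0 V E →₀ ZMod p) :
    ∃ (k m : ℕ) (v' y' z' : Fin k → A) (v'' w'' a' b' : Fin m → A),
      (∀ i, TriA p (v' i) (y' i) (z' i)) ∧ (∀ k, QdA p (v'' k) (w'' k) (a' k) (b' k)) ∧
      ∃ c', Finsupp.linearCombination (ZMod p) (s0 ρ y z a b) c =
        lcA p (cf' v' y' z' v'' w'' a' b') c' := by
  obtain ⟨n, m, eP, eQ, h1, h2, h3, h4, h5⟩ := enum c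
  refine ⟨n, m, fun i => ρ (eP i), fun i => y (eP i), fun i => z (eP i),
    fun k => ρ (eQ k).1.1, fun k => ρ (eQ k).1.2, fun k => a (eQ k), fun k => b (eQ k),
    fun i => ht _, fun k => hq _,
    Sum.elim (fun i => c (Sum.inl (eP i.1, i.2)))
      fun k => ![0, 0, c (Sum.inr (eQ k.1, 0)), c (Sum.inr (eQ k.1, 1))] k.2, ?_⟩
  rw [lc_range (ph eP eQ) (ph_inj h1 h2) _ c (ph_sur h3 h4)]
  unfold lcA
  rw [Fintype.sum_sum_type, Fintype.sum_sum_type]
  congr 1
  rw [Fintype.sum_prod_type, Fintype.sum_prod_type]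
  apply Finset.sum_congr rfl
  intro k _
  rw [Fin.sum_univ_two, Fin.sum_univ_four]
  change c (Sum.inr (eQ k, 0)) • a (eQ k) + c (Sum.inr (eQ k, 1)) • b (eQ k) =
    (0 : ZMod p) • ρ (eQ k).1.1 + (0 : ZMod p) • ρ (eQ k).1.2 +
      c (Sum.inr (eQ k, 0)) • a (eQ k) + c (Sum.inr (eQ k, 1)) • b (eQ k)
  rw [zero_smul, zero_smul, zero_add, zero_add]

end alg

theorem gen (h : S_loose) : S_gen := by
  intro p _ hp A _ _ V E ρ hA hF hR
  have hvt : ∀ v, ∃ y z, TriA p (ρ v) y z := hR.vt
  choose y z hyz using hvt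
  have he : ∀ q : {q : V × V // E q.1 q.2}, ∃ a b, QdA p (ρ q.1.1) (ρ q.1.2) a b :=
    fun q => hR.e1 _ _ q.2
  choose a b hab using he
  set σ : B0 V E → A := s0 ρ y z a b with hσ
  let W : Submodule (ZMod p) A := Submodule.span (ZMod p) (Set.range σ) ⊔ Zs p A
  let D1 : Type := Module.Basis.ofVectorSpaceIndex (ZMod p) (A ⧸ W)
  let bD : Module.Basis D1 (ZMod p) (A ⧸ W) := Module.Basis.ofVectorSpace (ZMod p) (A ⧸ W)
  have hd : ∀ i : D1, ∃ x : A, W.mkQ x = bD i := fun i => W.mkQ_surjective _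
  choose d hd using hd
  -- the old generators
  have hσW : ∀ e, σ e ∈ W := fun e =>
    Submodule.mem_sup_left (Submodule.subset_span (Set.mem_range_self e))
  have hCW : ∀ x : A, Ct x → x ∈ W := fun x hx => Submodule.mem_sup_right hx
  have hWx : ∀ x ∈ W, ∃ c : B0 V E →₀ ZMod p,
      Ct (x - Finsupp.linearCombination (ZMod p) σ c) := by
    intro x hx
    obtain ⟨x1, hx1, x2, hx2, rfl⟩ := Submodule.mem_sup.1 hx
    obtain ⟨c, rfl⟩ := (Finsupp.mem_span_range_iff_exists_finsupp).1 hx1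
    refine ⟨c, ?_⟩
    have e1 : (c.sum fun i a => a • σ i) + x2 - Finsupp.linearCombination (ZMod p) σ c = x2 := by
      rw [Finsupp.linearCombination_apply]
      abel
    rw [e1]
    exact hx2
  -- combinations of all generators
  have hsplit : ∀ c : Bx V E D1 →₀ ZMod p,
      Finsupp.linearCombination (ZMod p) (Sum.elim σ d) c =
        Finsupp.linearCombination (ZMod p) σ (Finsupp.sumFinsuppEquivProdFinsupp c).1 +
        Finsupp.linearCombination (ZMod p) d (Finsupp.sumFinsuppEquivProdFinsupp c).2 := by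
    intro c
    obtain ⟨⟨c1, c2⟩, rfl⟩ := Finsupp.sumFinsuppEquivProdFinsupp.symm.surjective c
    rw [Equiv.apply_symm_apply]
    change Finsupp.linearCombination (ZMod p) (Sum.elim σ d) (Finsupp.sumElim c1 c2) = _
    rw [Finsupp.linearCombination_apply, Finsupp.sum_sumElim]
    rfl
  have htri : ∀ v, TriA p (σ (Sum.inl (v, 0))) (σ (Sum.inl (v, 1))) (σ (Sum.inl (v, 2))) :=
    fun v => hyz v
  have hqd : ∀ q : {q : V × V // E q.1 q.2}, QdA p (σ (Sum.inl (q.1.1, 0)))
      (σ (Sum.inl (q.1.2, 0))) (σ (Sum.inr (q, 0))) (σ (Sum.inr (q, 1))) := fun q => hab q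
  have hloose := h p hp A V E D1 ρ (Sum.elim σ d) hA hF hR (fun v => rfl) htri hqd
  have hσlin : ∀ c : B0 V E →₀ ZMod p, Finsupp.linearCombination (ZMod p) σ c ∈ W := by
    intro c
    rw [Finsupp.linearCombination_apply]
    exact Submodule.sum_mem _ fun e _ => W.smul_mem _ (hσW e)
  have hdlin : ∀ c : D1 →₀ ZMod p, W.mkQ (Finsupp.linearCombination (ZMod p) d c) =
      Finsupp.linearCombination (ZMod p) bD c := by
    intro c
    rw [Finsupp.linearCombination_apply, Finsupp.linearCombination_apply, map_finsuppSum]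
    apply Finsupp.sum_congr
    intro i _
    rw [map_smul, hd]
  refine ⟨D1, Sum.elim σ d, ⟨fun v => rfl, htri, hqd, fun x => ?_, fun c hc => ?_⟩,
    ⟨fun v => (htri v).1, fun v => (htri v).2.1, fun q => (hqd q).2.2.2⟩, fun n => ⟨?_, ?_⟩⟩
  · -- span
    obtain ⟨c2, hc2⟩ : ∃ c2 : D1 →₀ ZMod p, W.mkQ x = Finsupp.linearCombination (ZMod p) bD c2 :=
      ⟨bD.repr (W.mkQ x), (bD.linearCombination_repr _).symm⟩
    have h1 : x - Finsupp.linearCombination (ZMod p) d c2 ∈ W := by
      rw [← Submodule.ker_mkQ W, LinearMap.mem_ker, map_sub, hc2, hdlin, sub_self]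
    obtain ⟨c1, hc1⟩ := hWx _ h1
    refine ⟨Finsupp.sumFinsuppEquivProdFinsupp.symm (c1, c2), ?_⟩
    rw [hsplit, Equiv.apply_symm_apply]
    have e1 : x - (Finsupp.linearCombination (ZMod p) σ c1 +
        Finsupp.linearCombination (ZMod p) d c2) =
        x - Finsupp.linearCombination (ZMod p) d c2 -
          Finsupp.linearCombination (ZMod p) σ c1 := by abel
    rw [e1]
    exact hc1
  · -- independence
    rw [hsplit] at hc
    obtain ⟨⟨c1, c2⟩, rfl⟩ := Finsupp.sumFinsuppEquivProdFinsupp.symm.surjective c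
    rw [Equiv.apply_symm_apply] at hc
    simp only at hc
    have h1 : W.mkQ (Finsupp.linearCombination (ZMod p) d c2) = 0 := by
      have h2 : Finsupp.linearCombination (ZMod p) σ c1 +
          Finsupp.linearCombination (ZMod p) d c2 ∈ W := hCW _ hc
      have h3 : Finsupp.linearCombination (ZMod p) d c2 ∈ W := by
        have h4 := W.sub_mem h2 (hσlin c1)
        rwa [add_sub_cancel_left] at h4
      rwa [← LinearMap.mem_ker, Submodule.ker_mkQ]
    rw [hdlin] at h1
    have h2 : c2 = 0 := by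
      have h3 := bD.linearIndependent
      rw [linearIndependent_iff] at h3
      exact h3 c2 h1
    rw [h2, map_zero, add_zero] at hc
    have h3 : c1 = 0 := ind0 hF.ind hR y z a b hyz hab c1 hc
    rw [h2, h3]
    ext e
    rcases e with e | e
    · rfl
    · rfl
  · -- from `J1A`
    rintro ⟨u, hu⟩
    have hli : LinearIndependent (ZMod p) fun i => W.mkQ (u i) := by
      rw [Fintype.linearIndependent_iff]
      intro c hc
      have h1 : lcA p u c ∈ W := by
        rw [← Submodule.ker_mkQ W, LinearMap.mem_ker]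
        unfold lcA
        rw [map_sum, ← hc]
        apply Finset.sum_congr rfl
        intro i _
        rw [map_smul]
      obtain ⟨c1, hc1⟩ := hWx _ h1
      obtain ⟨k, m, v', y', z', v'', w'', a', b', k1, k2, c', hc'⟩ := loose0 y z a b hyz hab c1
      by_contra hcon
      push Not at hcon
      refine hu k m v' y' z' v'' w'' a' b' k1 k2 c hcon ⟨-c', ?_⟩
      have e1 : lcA p (cf' v' y' z' v'' w'' a' b') (-c') =
          - lcA p (cf' v' y' z' v'' w'' a' b') c' := by
        unfold lcA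
        rw [← Finset.sum_neg_distrib]
        apply Finset.sum_congr rfl
        intro i _
        rw [Pi.neg_apply, neg_smul]
      rw [e1, ← hc', ← sub_eq_add_neg]
      exact hc1
    have h1 := hli.cardinal_le_rank
    rw [← bD.mk_eq_rank''] at h1
    obtain ⟨f⟩ := Cardinal.le_def _ _ |>.1 h1
    exact ⟨f, f.injective⟩
  · -- to `J1A`
    rintro ⟨f, hf⟩
    refine ⟨fun i => d (f i), fun k m v' y' z' v'' w'' a' b' k1 k2 c hc => ?_⟩
    rintro ⟨c', hc'⟩
    obtain ⟨P, Q, -, hPQ⟩ := hloose k m v' y' z' v'' w'' a' b' k1 k2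
    have h1 : ∀ i, cf' v' y' z' v'' w'' a' b' i ∈ W := by
      intro i
      obtain ⟨e, he1, he2, -⟩ := hPQ i
      rw [hsplit] at he1
      have e1 : (Finsupp.sumFinsuppEquivProdFinsupp e).2 = 0 := by
        ext x
        rw [Finsupp.snd_sumFinsuppEquivProdFinsupp]
        exact he2 x
      rw [e1, map_zero, add_zero] at he1
      have h2 := W.add_mem (hCW _ he1) (hσlin (Finsupp.sumFinsuppEquivProdFinsupp e).1)
      rwa [sub_add_cancel] at h2
    have h2 : lcA p (cf' v' y' z' v'' w'' a' b') c' ∈ W := by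
      unfold lcA
      exact Submodule.sum_mem _ fun i _ => W.smul_mem _ (h1 i)
    have h3 : lcA p (fun i => d (f i)) c ∈ W := by
      have h4 := W.sub_mem (hCW _ hc') h2
      rwa [add_sub_cancel_right] at h4
    rw [← Submodule.ker_mkQ W, LinearMap.mem_ker] at h3
    unfold lcA at h3
    rw [map_sum] at h3
    have h4 : ∑ i, c i • bD (f i) = 0 := by
      rw [← h3]
      apply Finset.sum_congr rfl
      intro i _
      rw [map_smul, hd]
    have h5 := (Fintype.linearIndependent_iff.1 (bD.linearIndependent.comp f hf)) c h4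
    obtain ⟨i, hi⟩ := hc
    exact hi (h5 i)

end Pool.Agent.H643.FV
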